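import Pool.Agent.Helper69K1.GrB.Rad
import Pool.Agent.Helper69K1.GrU.Fin
import Pool.Agent.Helper69K1.AlgMod

/-!
# The test for hidden block triangular spaces
-/

set_option linter.unusedSectionVars false

namespace Pool.Agent.Helper69K1.GrB

open Module Pool.Agent.NPC Pool.Agent.NPC.H532 Pool.Agent.H420_NCF Pool.Agent.H687R2.LLL
open Pool.Agent.Helper69K1 Pool.Agent.Helper69K1.Gr Pool.Agent.Helper69K1.GrU

/-- The test on symbolic matrices. -/
noncomputable def symB (A : SMat) : Bool :=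
  (A.all fun r => decide (r.length = A.length)) && testG (addR (inp A))

theorem poly_symB : Poly symB := by
  unfold symB
  exact Poly.and (poly_isSquare Poly.id) (poly_testG.comp (poly_addR.comp (poly_inp Poly.id)))

theorem ex_cq_iff {N : ℕ} {Bs : List Mat} :
    (∃ c, (cq N Bs c).det ≠ 0) ↔ ∃ X ∈ spB N Bs, X.det ≠ 0 := by
  constructor
  · rintro ⟨c, hc⟩
    exact ⟨_, cq_mem_spB N Bs c, hc⟩
  · rintro ⟨X, hX, h⟩
    obtain ⟨c, rfl⟩ := mem_spB.1 hX
    exact ⟨c, h⟩

theorem addR_sound (h1 : S_P1) {I : Inp} (h : testG (addR I) = true) :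
    ∃ c, (cq I.1.length I.2 c).det ≠ 0 := by
  have h0 : testG (I.1, I.2 ++ radF I.1.length I.2) = true := h
  obtain ⟨c, hc⟩ := testG_sound h0
  obtain ⟨Y, hY, hdet⟩ : ∃ X ∈ spB I.1.length (I.2 ++ radF I.1.length I.2), X.det ≠ 0 :=
    ex_cq_iff.1 ⟨c, hc⟩
  rw [spB_addR] at hY
  obtain ⟨X, hX, r, hr, rfl⟩ := Submodule.mem_sup.1 hY
  exact ex_cq_iff.2 ⟨X, hX, h1 _ _ X (Algebra.subset_adjoin hX) r hr hdet⟩

theorem addR_complete (hG : S_GU) (h2 : S_P2) {I : Inp} {κ : ℕ}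
    (hB : com (spB I.1.length I.2) (κ + 1) ≤ spB I.1.length I.2 ⊔
      radT (Algebra.adjoin ℚ (spB I.1.length I.2 : Set (Matrix (Fin I.1.length)
        (Fin I.1.length) ℚ))))
    (h : ∃ c, (cq I.1.length I.2 c).det ≠ 0) : testG (addR I) = true := by
  change testG (I.1, I.2 ++ radF I.1.length I.2) = true
  refine testU_complete hG κ ?_ ?_
  · change com (spB I.1.length (I.2 ++ radF I.1.length I.2)) (κ + 1) ≤
      spB I.1.length (I.2 ++ radF I.1.length I.2)
    rw [spB_addR]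
    exact h2 _ _ _ _ (fun X hX => Algebra.subset_adjoin hX) hB
  · change ∃ c, (cq I.1.length (I.2 ++ radF I.1.length I.2) c).det ≠ 0
    obtain ⟨X, hX, hdet⟩ := ex_cq_iff.1 h
    refine ex_cq_iff.2 ⟨X, ?_, hdet⟩
    rw [spB_addR]
    exact Submodule.mem_sup_left hX

theorem symB_sound (h1 : S_P1) {A : SMat} (h : symB A = true) :
    IsSquare A ∧ (symMat A).det ≠ 0 := by
  rw [symB, Bool.and_eq_true] at h
  exact ⟨(isSquare_iff A).1 h.1, cast_det (addR_sound h1 h.2)⟩

theorem symB_complete (hG : S_GU) (h2 : S_P2) {A : SMat} (hs : IsSquare A) {κ : ℕ}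
    (hB : com (spB A.length (coeffs A)) (κ + 1) ≤ spB A.length (coeffs A) ⊔
      radT (Algebra.adjoin ℚ (spB A.length (coeffs A) : Set (Matrix (Fin A.length)
        (Fin A.length) ℚ))))
    (h : (symMat A).det ≠ 0) : symB A = true := by
  rw [symB, Bool.and_eq_true]
  refine ⟨(isSquare_iff A).2 hs, addR_complete hG h2 (κ := κ) ?_ (det_cast h)⟩
  rw [length_inp]
  exact hB

end Pool.Agent.Helper69K1.GrB
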