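import Pool.Agent.Helper69K1.GrB.Stm
import Pool.Agent.Helper56Gr.N1

/-! Piece P1 of project GrB (helper69). -/

set_option autoImplicit false

namespace Pool.Agent.Helper69K1.GrB

open Module Pool.Agent.Helper69K1 Pool.Agent.Helper69K1.Gr

theorem t_P1 : S_P1 := by
  intro n _ _ A X hX r hr hdet
  obtain ⟨hrA, hr0⟩ := hr
  set Y := X + r with hY
  have hYA : Y ∈ A := A.add_mem hX hrA
  have hu : IsUnit Y := (Matrix.isUnit_iff_isUnit_det Y).mpr (isUnit_iff_ne_zero.mpr hdet)
  obtain ⟨Z, hZA, hZ⟩ : ∃ Z ∈ A, Y * Z = 1 := by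
    let f : A →ₗ[ℚ] A :=
      { toFun := fun a => ⟨Y, hYA⟩ * a
        map_add' := fun a b => mul_add _ _ _
        map_smul' := fun c a => by
          rw [RingHom.id_apply]
          exact mul_smul_comm _ _ _ }
    have hinj : Function.Injective f := by
      intro a b hab
      have h1 : Y * (a : Matrix n n ℚ) = Y * b := congrArg Subtype.val hab
      exact Subtype.ext (hu.mul_left_cancel h1)
    have hsurj : Function.Surjective f := LinearMap.injective_iff_surjective.mp hinj
    obtain ⟨Z, hZ⟩ := hsurj 1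
    exact ⟨Z, Z.2, congrArg Subtype.val hZ⟩
  have hnil : IsNilpotent (Z * r) := by
    refine Pool.Agent.Helper56Gr.nil_of_tr _ fun m hm => ?_
    obtain ⟨k, rfl⟩ : ∃ k, m = k + 1 := ⟨m - 1, by omega⟩
    rw [pow_succ', mul_assoc, Matrix.trace_mul_comm, mul_assoc]
    refine hr0 _ (A.mul_mem ?_ hZA)
    exact A.pow_mem (A.mul_mem hZA hrA) k
  have hX' : X = Y * (1 - Z * r) := by
    rw [mul_sub, mul_one, ← mul_assoc, hZ, one_mul, hY, add_sub_cancel_right]
  have h1 : IsUnit (1 - Z * r) := hnil.isUnit_one_sub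
  have h2 : IsUnit X := by
    rw [hX']
    exact hu.mul h1
  exact ((Matrix.isUnit_iff_isUnit_det X).mp h2).ne_zero

end Pool.Agent.Helper69K1.GrB
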