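import Pool.Agent.Helper69K1.GrB.Stm

/-!
# The space plus the radical is closed (helper48)
-/

set_option autoImplicit false

namespace Pool.Agent.Helper69K1.GrB

open Module Pool.Agent.Helper69K1 Pool.Agent.Helper69K1.Gr

section

variable {n : Type} [Fintype n] [DecidableEq n] {A : Subalgebra ℚ (Matrix n n ℚ)}

theorem radT_le : radT A ≤ Subalgebra.toSubmodule A := fun _ hr => hr.1

theorem radT_mul_right {r a : Matrix n n ℚ} (hr : r ∈ radT A) (ha : a ∈ A) : r * a ∈ radT A :=
  ⟨A.mul_mem hr.1 ha, fun b hb => by rw [Matrix.mul_assoc]; exact hr.2 _ (A.mul_mem ha hb)⟩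

theorem radT_mul_left {r a : Matrix n n ℚ} (hr : r ∈ radT A) (ha : a ∈ A) : a * r ∈ radT A :=
  ⟨A.mul_mem ha hr.1, fun b hb => by
    rw [Matrix.mul_assoc, Matrix.trace_mul_comm, Matrix.mul_assoc]
    exact hr.2 _ (A.mul_mem hb ha)⟩

theorem com_le_alg {h : Submodule ℚ (Matrix n n ℚ)} (hA : h ≤ Subalgebra.toSubmodule A) (j : ℕ) :
    com h j ≤ Subalgebra.toSubmodule A := by
  induction j with
  | zero => exact hA
  | succ j ih =>
    refine Submodule.span_le.2 ?_
    rintro c ⟨a, ha, b, hb, rfl⟩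
    exact A.sub_mem (A.mul_mem (hA ha) (ih hb)) (A.mul_mem (ih hb) (hA ha))

theorem com_sup_le {h : Submodule ℚ (Matrix n n ℚ)} (hA : h ≤ Subalgebra.toSubmodule A) (j : ℕ) :
    com (h ⊔ radT A) j ≤ com h j ⊔ radT A := by
  induction j with
  | zero => exact le_refl _
  | succ j ih =>
    refine Submodule.span_le.2 ?_
    rintro c ⟨a, ha, b, hb, rfl⟩
    obtain ⟨x, hx, r, hr, rfl⟩ := Submodule.mem_sup.1 ha
    obtain ⟨y, hy, s, hs, rfl⟩ := Submodule.mem_sup.1 (ih hb)
    have hxA : x ∈ A := hA hx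
    have hyA : y ∈ A := com_le_alg hA j hy
    have hsA : s ∈ A := hs.1
    refine Submodule.mem_sup.2 ⟨x * y - y * x, Submodule.subset_span ⟨x, hx, y, hy, rfl⟩,
      (x * s - s * x) + (r * y - y * r) + (r * s - s * r), ?_, ?_⟩
    · exact (radT A).add_mem ((radT A).add_mem
        ((radT A).sub_mem (radT_mul_left hs hxA) (radT_mul_right hs hxA))
        ((radT A).sub_mem (radT_mul_right hr hyA) (radT_mul_left hr hyA)))
        ((radT A).sub_mem (radT_mul_right hr hsA) (radT_mul_left hr hsA))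
    · noncomm_ring

end

theorem t_P2 : S_P2 := by
  intro n _ _ A h k hA hk
  refine (com_sup_le hA k).trans ?_
  exact sup_le hk le_sup_right

end Pool.Agent.Helper69K1.GrB
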