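import Pool.Agent.Helper69K1.GrB.Stm

/-!
# Piece P3: from complex block triangular coordinates to the radical
(helper61)
-/

set_option autoImplicit false

namespace Pool.Agent.Helper69K1.GrB

open Module Pool.Agent.Helper69K1 Pool.Agent.Helper69K1.Gr

namespace P3

theorem iterComm_congr {R : Type} [Ring R] {M M' : ℕ → R} :
    ∀ k, (∀ i ≤ k, M i = M' i) → iterComm M k = iterComm M' k
  | 0, h => h 0 le_rfl
  | k + 1, h => by
      rw [iterComm, iterComm, iterComm_congr k fun i hi => h i (Nat.le_succ_of_le hi),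
        h (k + 1) le_rfl]

/-- `com h k` is spanned by the iterated commutators of `k + 1` elements of `h`. -/
theorem com_le_span {n : Type} [Fintype n] [DecidableEq n] (h : Submodule ℚ (Matrix n n ℚ)) :
    ∀ k, com h k ≤ Submodule.span ℚ {X | ∃ M : ℕ → Matrix n n ℚ, (∀ i, M i ∈ h) ∧
      X = iterComm M k}
  | 0 => fun X hX => Submodule.subset_span ⟨fun _ => X, fun _ => hX, rfl⟩
  | k + 1 => by
      rw [com, Submodule.span_le]
      rintro _ ⟨a, ha, b, hb, rfl⟩
      have hb' := com_le_span h k hb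
      refine Submodule.span_induction (p := fun b _ => a * b - b * a ∈ Submodule.span ℚ
        {X | ∃ M : ℕ → Matrix n n ℚ, (∀ i, M i ∈ h) ∧ X = iterComm M (k + 1)}) ?_ ?_ ?_ ?_ hb'
      · rintro _ ⟨M, hM, rfl⟩
        refine Submodule.subset_span ⟨fun i => if i = k + 1 then a else M i, fun i => ?_, ?_⟩
        · by_cases hi : i = k + 1
          · simpa [hi] using ha
          · simpa [hi] using hM i
        · rw [iterComm, iterComm_congr (M := fun i => if i = k + 1 then a else M i) (M' := M) k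
            fun i hi => if_neg (by omega)]
          simp
      · simp
      · intro x y _ _ hx hy
        have : a * (x + y) - (x + y) * a = (a * x - x * a) + (a * y - y * a) := by
          rw [mul_add, add_mul]; abel
        rw [this]
        exact Submodule.add_mem _ hx hy
      · intro r x _ hx
        have : a * (r • x) - (r • x) * a = r • (a * x - x * a) := by
          rw [mul_smul_comm, smul_mul_assoc, smul_sub]
        rw [this]
        exact Submodule.smul_mem _ _ hx

variable {N : ℕ}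

/-- block upper triangular -/
def UT (g : Fin N → ℕ) (U : Matrix (Fin N) (Fin N) ℂ) : Prop := ∀ i j, g j < g i → U i j = 0

theorem UT.add {g : Fin N → ℕ} {U V : Matrix (Fin N) (Fin N) ℂ} (hU : UT g U) (hV : UT g V) :
    UT g (U + V) := fun i j h => by
  rw [Matrix.add_apply, hU i j h, hV i j h, add_zero]

theorem UT.sub {g : Fin N → ℕ} {U V : Matrix (Fin N) (Fin N) ℂ} (hU : UT g U) (hV : UT g V) :
    UT g (U - V) := fun i j h => by
  rw [Matrix.sub_apply, hU i j h, hV i j h, sub_zero]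

theorem UT.smul {g : Fin N → ℕ} {U : Matrix (Fin N) (Fin N) ℂ} (c : ℂ) (hU : UT g U) :
    UT g (c • U) := fun i j h => by
  rw [Matrix.smul_apply, hU i j h, smul_zero]

theorem UT.mul {g : Fin N → ℕ} {U V : Matrix (Fin N) (Fin N) ℂ} (hU : UT g U) (hV : UT g V) :
    UT g (U * V) := fun i j h => by
  rw [Matrix.mul_apply]
  apply Finset.sum_eq_zero
  intro l _
  rcases lt_or_ge (g l) (g i) with h1 | h1
  · rw [hU i l h1, zero_mul]
  · rw [hV l j (lt_of_lt_of_le h h1), mul_zero]

theorem diag_mul {g : Fin N → ℕ} {U V : Matrix (Fin N) (Fin N) ℂ} (hU : UT g U) (hV : UT g V) :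
    diagPart g (U * V) = diagPart g U * diagPart g V := by
  ext i j
  rw [Matrix.mul_apply]
  simp only [diagPart, Matrix.of_apply]
  by_cases h : g i = g j
  · rw [if_pos h, Matrix.mul_apply]
    apply Finset.sum_congr rfl
    intro l _
    rcases lt_trichotomy (g l) (g i) with h1 | h1 | h1
    · rw [hU i l h1, if_neg h1.ne', zero_mul, zero_mul]
    · rw [if_pos h1.symm, if_pos (h1.trans h)]
    · rw [hV l j (h ▸ h1), if_neg h1.ne, zero_mul, mul_zero]
  · rw [if_neg h]
    symm
    apply Finset.sum_eq_zero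
    intro l _
    by_cases h1 : g i = g l
    · rw [if_neg (show ¬ g l = g j from fun h2 => h (h1.trans h2)), mul_zero]
    · rw [if_neg h1, zero_mul]

theorem diag_sub (g : Fin N → ℕ) (U V : Matrix (Fin N) (Fin N) ℂ) :
    diagPart g (U - V) = diagPart g U - diagPart g V := by
  ext i j
  simp only [diagPart, Matrix.of_apply, Matrix.sub_apply]
  by_cases h : g i = g j
  · rw [if_pos h, if_pos h, if_pos h]
  · rw [if_neg h, if_neg h, if_neg h, sub_zero]

theorem conj_mul {P : Matrix (Fin N) (Fin N) ℂ} (hP : P.det ≠ 0) (U V : Matrix (Fin N) (Fin N) ℂ) :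
    P * (U * V) * P⁻¹ = (P * U * P⁻¹) * (P * V * P⁻¹) := by
  have h1 : P⁻¹ * P = 1 := Matrix.nonsing_inv_mul P (isUnit_iff_ne_zero.2 hP)
  calc P * (U * V) * P⁻¹ = P * U * 1 * V * P⁻¹ := by rw [mul_one, ← mul_assoc P U V]
    _ = P * U * (P⁻¹ * P) * V * P⁻¹ := by rw [h1]
    _ = (P * U * P⁻¹) * (P * V * P⁻¹) := by simp only [mul_assoc]

theorem conj_sub (P U V : Matrix (Fin N) (Fin N) ℂ) :
    P * (U - V) * P⁻¹ = P * U * P⁻¹ - P * V * P⁻¹ := by
  rw [mul_sub, sub_mul]

theorem conj_add (P U V : Matrix (Fin N) (Fin N) ℂ) :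
    P * (U + V) * P⁻¹ = P * U * P⁻¹ + P * V * P⁻¹ := by
  rw [mul_add, add_mul]

theorem map_mul' (X Z : Matrix (Fin N) (Fin N) ℚ) :
    (X * Z).map (algebraMap ℚ ℂ) = X.map (algebraMap ℚ ℂ) * Z.map (algebraMap ℚ ℂ) :=
  Matrix.map_mul

theorem map_sub' (X Z : Matrix (Fin N) (Fin N) ℚ) :
    (X - Z).map (algebraMap ℚ ℂ) = X.map (algebraMap ℚ ℂ) - Z.map (algebraMap ℚ ℂ) := by
  ext i j
  simp

theorem map_add' (X Z : Matrix (Fin N) (Fin N) ℚ) :
    (X + Z).map (algebraMap ℚ ℂ) = X.map (algebraMap ℚ ℂ) + Z.map (algebraMap ℚ ℂ) := by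
  ext i j
  simp

theorem adjoin_UT {P : Matrix (Fin N) (Fin N) ℂ} (hP : P.det ≠ 0) {g : Fin N → ℕ}
    {B : Submodule ℚ (Matrix (Fin N) (Fin N) ℚ)}
    (hB : ∀ X ∈ B, UT g (P * X.map (algebraMap ℚ ℂ) * P⁻¹)) {b : Matrix (Fin N) (Fin N) ℚ}
    (hb : b ∈ Algebra.adjoin ℚ (B : Set (Matrix (Fin N) (Fin N) ℚ))) :
    UT g (P * b.map (algebraMap ℚ ℂ) * P⁻¹) := by
  induction hb using Algebra.adjoin_induction with
  | mem x hx => exact hB x hx
  | algebraMap r =>
    have h1 : (algebraMap ℚ (Matrix (Fin N) (Fin N) ℚ) r).map (algebraMap ℚ ℂ) =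
        (algebraMap ℚ ℂ r) • (1 : Matrix (Fin N) (Fin N) ℂ) := by
      ext i j
      rw [Matrix.map_apply, Matrix.algebraMap_matrix_apply, Matrix.smul_apply, Matrix.one_apply]
      by_cases h : i = j
      · rw [if_pos h, if_pos h]
        simp
      · rw [if_neg h, if_neg h]
        simp
    have h2 : P * P⁻¹ = 1 := Matrix.mul_nonsing_inv P (isUnit_iff_ne_zero.2 hP)
    rw [h1, mul_smul_comm, smul_mul_assoc, mul_one, h2]
    intro i j hij
    rw [Matrix.smul_apply, Matrix.one_apply, if_neg (by rintro rfl; exact lt_irrefl _ hij), smul_zero]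
  | add x y _ _ hx hy =>
    rw [map_add', conj_add]
    exact hx.add hy
  | mul x y _ _ hx hy =>
    rw [map_mul', conj_mul hP]
    exact hx.mul hy

theorem iter_mem {B : Submodule ℚ (Matrix (Fin N) (Fin N) ℚ)} {M : ℕ → Matrix (Fin N) (Fin N) ℚ}
    (hM : ∀ i, M i ∈ B) : ∀ k, iterComm M k ∈ Algebra.adjoin ℚ (B : Set (Matrix (Fin N) (Fin N) ℚ))
  | 0 => Algebra.subset_adjoin (hM 0)
  | k + 1 => by
      rw [iterComm]
      exact Subalgebra.sub_mem _ (Subalgebra.mul_mem _ (Algebra.subset_adjoin (hM _)) (iter_mem hM k))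
        (Subalgebra.mul_mem _ (iter_mem hM k) (Algebra.subset_adjoin (hM _)))

theorem iter_diag {P : Matrix (Fin N) (Fin N) ℂ} (hP : P.det ≠ 0) {g : Fin N → ℕ}
    {B : Submodule ℚ (Matrix (Fin N) (Fin N) ℚ)}
    (hB : ∀ X ∈ B, UT g (P * X.map (algebraMap ℚ ℂ) * P⁻¹)) {M : ℕ → Matrix (Fin N) (Fin N) ℚ}
    (hM : ∀ i, M i ∈ B) : ∀ k, diagPart g (P * (iterComm M k).map (algebraMap ℚ ℂ) * P⁻¹) =
      iterComm (fun i => diagPart g (P * (M i).map (algebraMap ℚ ℂ) * P⁻¹)) k
  | 0 => rfl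
  | k + 1 => by
      rw [iterComm, iterComm, map_sub', conj_sub, diag_sub, map_mul', map_mul', conj_mul hP,
        conj_mul hP, diag_mul (hB _ (hM _)) (adjoin_UT hP hB (iter_mem hM k)),
        diag_mul (adjoin_UT hP hB (iter_mem hM k)) (hB _ (hM _)), iter_diag hP hB hM k]

end P3

open P3 in
/-- piece P3 -/
theorem t_P3 : S_P3 := by
  intro N k B P hP g hB hY
  set A := Algebra.adjoin ℚ (B : Set (Matrix (Fin N) (Fin N) ℚ)) with hA
  have hB' : ∀ X ∈ B, UT g (P * X.map (algebraMap ℚ ℂ) * P⁻¹) := hB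
  refine (com_le_span B k).trans (Submodule.span_le.2 ?_)
  rintro _ ⟨M, hM, rfl⟩
  obtain ⟨Y, hYs, hYd⟩ := hY M hM
  set C := iterComm M k with hC
  have hCA : C ∈ A := iter_mem hM k
  -- `Y` is block triangular
  have hYU : UT g (P * Y * P⁻¹) := by
    refine Submodule.span_induction (p := fun Y _ => UT g (P * Y * P⁻¹)) ?_ ?_ ?_ ?_ hYs
    · rintro _ ⟨X, hX, rfl⟩
      exact hB' X hX
    · rw [mul_zero, zero_mul]
      intro i j _
      rfl
    · intro x y _ _ hx hy
      rw [conj_add]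
      exact hx.add hy
    · intro c x _ hx
      rw [mul_smul_comm, smul_mul_assoc]
      exact hx.smul c
  set W := C.map (algebraMap ℚ ℂ) - Y with hW
  have hWU : UT g (P * W * P⁻¹) := by
    rw [hW, conj_sub]
    exact (adjoin_UT hP hB' hCA).sub hYU
  have hWd : diagPart g (P * W * P⁻¹) = 0 := by
    rw [hW, conj_sub, diag_sub, hYd, iter_diag hP hB' hM k, sub_self]
  have htr : ∀ b ∈ A, (W * b.map (algebraMap ℚ ℂ)).trace = 0 := by
    intro b hb
    have hbU := adjoin_UT hP hB' hb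
    have h1 : (W * b.map (algebraMap ℚ ℂ)).trace =
        ((P * W * P⁻¹) * (P * b.map (algebraMap ℚ ℂ) * P⁻¹)).trace := by
      rw [← conj_mul hP, Matrix.trace_mul_comm (P * (W * b.map (algebraMap ℚ ℂ))) P⁻¹, ← mul_assoc,
        Matrix.nonsing_inv_mul P (isUnit_iff_ne_zero.2 hP), one_mul]
    rw [h1, Matrix.trace]
    apply Finset.sum_eq_zero
    intro i _
    rw [Matrix.diag_apply, Matrix.mul_apply]
    apply Finset.sum_eq_zero
    intro l _
    rcases lt_trichotomy (g l) (g i) with h2 | h2 | h2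
    · rw [hWU i l h2, zero_mul]
    · have h3 : (P * W * P⁻¹) i l = 0 := by
        have h4 := congrFun (congrFun hWd i) l
        simp only [diagPart, Matrix.of_apply] at h4
        rw [if_pos h2.symm] at h4
        exact h4
      rw [h3, zero_mul]
    · rw [hbU l i h2, mul_zero]
  -- descent
  obtain ⟨π, hπ⟩ := LinearMap.exists_leftInverse_of_injective (Algebra.linearMap ℚ ℂ)
    (LinearMap.ker_eq_bot.2 (algebraMap ℚ ℂ).injective)
  have hπ1 : ∀ q : ℚ, π (algebraMap ℚ ℂ q) = q := fun q => LinearMap.congr_fun hπ q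
  have hπ2 : ∀ (z : ℂ) (q : ℚ), π (z * algebraMap ℚ ℂ q) = π z * q := by
    intro z q
    have h1 : z * algebraMap ℚ ℂ q = q • z := by
      rw [Algebra.smul_def, mul_comm]
    rw [h1, map_smul, smul_eq_mul, mul_comm]
  have hYB : ∀ ρ : ℂ →ₗ[ℚ] ℚ, Y.map ρ ∈ B := by
    refine Submodule.span_induction (p := fun Y _ => ∀ ρ : ℂ →ₗ[ℚ] ℚ, Y.map ρ ∈ B) ?_ ?_ ?_ ?_ hYs
    · rintro _ ⟨X, hX, rfl⟩ ρ
      have h1 : (X.map (algebraMap ℚ ℂ)).map ρ = ρ 1 • X := by
        ext i j
        rw [Matrix.map_apply, Matrix.map_apply, Matrix.smul_apply, smul_eq_mul,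
          Algebra.algebraMap_eq_smul_one, map_smul, smul_eq_mul, mul_comm]
      rw [h1]
      exact B.smul_mem _ hX
    · intro ρ
      have h1 : (0 : Matrix (Fin N) (Fin N) ℂ).map ρ = 0 := by
        ext i j
        rw [Matrix.map_apply, Matrix.zero_apply, map_zero, Matrix.zero_apply]
      rw [h1]
      exact B.zero_mem
    · intro x y _ _ hx hy ρ
      have h1 : (x + y).map ρ = x.map ρ + y.map ρ := by
        ext i j
        rw [Matrix.map_apply, Matrix.add_apply, map_add, Matrix.add_apply, Matrix.map_apply,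
          Matrix.map_apply]
      rw [h1]
      exact B.add_mem (hx ρ) (hy ρ)
    · intro c x _ hx ρ
      have h1 : (c • x).map ρ = x.map (ρ ∘ₗ LinearMap.mulLeft ℚ c) := by
        ext i j
        rw [Matrix.map_apply, Matrix.smul_apply, Matrix.map_apply]
        rfl
      rw [h1]
      exact hx _
  have hYA : Y.map π ∈ A := Algebra.subset_adjoin (hYB π)
  have hR : C - Y.map π ∈ radT A := by
    refine ⟨A.sub_mem hCA hYA, fun b hb => ?_⟩
    have h1 := congrArg π (htr b hb)
    rw [map_zero, hW, sub_mul, Matrix.trace_sub, map_sub] at h1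
    have h2 : π (C.map (algebraMap ℚ ℂ) * b.map (algebraMap ℚ ℂ)).trace = (C * b).trace := by
      rw [← map_mul']
      have h3 : ((C * b).map (algebraMap ℚ ℂ)).trace = algebraMap ℚ ℂ (C * b).trace := by
        rw [Matrix.trace, Matrix.trace, map_sum]
        rfl
      rw [h3, hπ1]
    have h3 : π (Y * b.map (algebraMap ℚ ℂ)).trace = (Y.map π * b).trace := by
      rw [Matrix.trace, Matrix.trace, map_sum]
      apply Finset.sum_congr rfl
      intro i _
      rw [Matrix.diag_apply, Matrix.diag_apply, Matrix.mul_apply, Matrix.mul_apply, map_sum]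
      apply Finset.sum_congr rfl
      intro l _
      rw [Matrix.map_apply, Matrix.map_apply, hπ2]
    rw [h2, h3] at h1
    rw [sub_mul, Matrix.trace_sub, h1]
  have hfin : C = Y.map π + (C - Y.map π) := by abel
  show C ∈ B ⊔ radT A
  rw [hfin]
  exact Submodule.add_mem_sup (hYB π) hR

end Pool.Agent.Helper69K1.GrB
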