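import Pool.Agent.Helper69K1.GrB.Stm
import Pool.Agent.Helper69K1.Pair
import Pool.Agent.Helper69K1.Gr.Alg
import Pool.Agent.Helper69K1.Gr.Rk

/-!
# The radical of the trace form in polynomial time
-/

set_option linter.unusedSectionVars false

namespace Pool.Agent.Helper69K1.GrB

open Module Pool.Agent.NPC Pool.Agent.NPC.H532 Pool.Agent.H420_NCF Pool.Agent.H687R2.LLL
open Pool.Agent.Helper69K1 Pool.Agent.Helper69K1.Gr

variable {α : Type} [TEnc α]

/-- The relations of the radical in terms of a spanning list of the algebra. -/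
noncomputable def radK (N : ℕ) (L : List Mat) : List (List ℤ) :=
  kerT L.length L fun b k => tr2 N (L.getD k []) b

/-- A spanning list of the radical of the algebra generated by the matrices `Zs`. -/
noncomputable def radF (N : ℕ) (Zs : List Mat) : List Mat :=
  (radK N (algF N Zs)).map fun u => cmb N (algF N Zs) u

theorem poly_radK {N : α → ℕ} {L : α → List Mat} (hN : UPoly N) (hL : Poly L) :
    Poly (fun a => radK (N a) (L a)) := by
  unfold radK
  refine poly_kerT (M := fun a => (L a).length) (cols := L)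
    (φ := fun a b k => tr2 (N a) ((L a).getD k []) b) (UPoly.length hL) hL ?_
  have h1 : Poly (fun p : (α × ℕ) × Mat => p.1.1) := Poly.fst (Poly.fst Poly.id)
  exact poly_tr2 (hN.comp h1) (Poly.getD (hL.comp h1) (Poly.snd (Poly.fst Poly.id)) (NPC.Poly.const []))
    (Poly.snd Poly.id)

theorem poly_radF {N : α → ℕ} {Zs : α → List Mat} (hN : UPoly N) (hZ : Poly Zs) :
    Poly (fun a => radF (N a) (Zs a)) := by
  unfold radF
  have hA : Poly (fun a => algF (N a) (Zs a)) := poly_algF hN hZ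
  refine NPC.Poly.map (F := fun a u => cmb (N a) (algF (N a) (Zs a)) u) (poly_radK hN hA) ?_
  exact poly_cmb (hN.comp (Poly.fst Poly.id)) (hA.comp (Poly.fst Poly.id)) (Poly.snd Poly.id)

theorem spB_radF (N : ℕ) (Zs : List Mat) :
    spB N (radF N Zs) = radT
      (Algebra.adjoin ℚ {M : Matrix (Fin N) (Fin N) ℚ | ∃ Z ∈ Zs, M = mq N Z}) := by
  set A := Algebra.adjoin ℚ {M : Matrix (Fin N) (Fin N) ℚ | ∃ Z ∈ Zs, M = mq N Z} with hA
  set L := algF N Zs with hL
  have hsp : ∀ M, M ∈ A ↔ M ∈ spB N L := by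
    intro M
    rw [hL, spB_algF]
    rfl
  obtain ⟨h1, h2⟩ := kerT_spec L.length L fun b k => tr2 N (L.getD k []) b
  -- the value of the table
  have htab : ∀ (c : ℕ → ℚ) (b : Mat), ∑ k ∈ Finset.range L.length,
      c k * ((tr2 N (L.getD k []) b : ℤ) : ℚ) = (cq N L c * mq N b).trace := by
    intro c b
    rw [cq, Finset.sum_mul, Matrix.trace_sum]
    refine Finset.sum_congr rfl fun k _ => ?_
    rw [tr2_eq, smul_mul_assoc, Matrix.trace_smul, smul_eq_mul]
  apply le_antisymm
  · refine Submodule.span_le.2 ?_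
    rintro _ ⟨B, hB, rfl⟩
    obtain ⟨u, hu, rfl⟩ := List.mem_map.1 hB
    obtain ⟨h3, h4⟩ := h1 u hu
    rw [mq_cmb]
    refine ⟨(hsp _).2 (cq_mem_spB N L (qv u)), fun b hb => ?_⟩
    have hb' := (hsp b).1 hb
    refine Submodule.span_induction (p := fun b _ => (cq N L (qv u) * b).trace = 0)
      ?_ ?_ ?_ ?_ hb'
    · rintro _ ⟨b, hbL, rfl⟩
      rw [← htab]
      have h5 := h4 b hbL
      have h6 : ((∑ k ∈ Finset.range L.length, u.getD k 0 * tr2 N (L.getD k []) b : ℤ) : ℚ) = 0 := by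
        rw [h5]; rfl
      push_cast at h6
      exact h6
    · rw [mul_zero, Matrix.trace_zero]
    · intro x y _ _ hx hy
      rw [mul_add, Matrix.trace_add, hx, hy, add_zero]
    · intro r x _ hx
      rw [mul_smul_comm, Matrix.trace_smul, hx, smul_zero]
  · rintro M ⟨hM, hM2⟩
    obtain ⟨c, rfl⟩ := mem_spB.1 ((hsp M).1 hM)
    have h5 := h2 c (fun b hb => by
      rw [htab]
      exact hM2 _ ((hsp _).2 (Submodule.subset_span ⟨b, hb, rfl⟩)))
    set Φ : (Fin L.length → ℚ) →ₗ[ℚ] Matrix (Fin N) (Fin N) ℚ :=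
      ∑ i : Fin L.length, (LinearMap.proj i : (Fin L.length → ℚ) →ₗ[ℚ] ℚ).smulRight
        (mq N (L.getD i [])) with hΦ
    have hΦc : ∀ d : ℕ → ℚ, Φ (fun i => d i) = cq N L d := by
      intro d
      rw [hΦ, LinearMap.sum_apply, cq,
        ← Fin.sum_univ_eq_sum_range (fun i => d i • mq N (L.getD i [])) L.length]
      refine Finset.sum_congr rfl fun i _ => ?_
      simp [LinearMap.smulRight_apply]
    rw [← hΦc]
    have h6 := Submodule.mem_map_of_mem (f := Φ) h5
    rw [vspan, Submodule.map_span] at h6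
    refine Submodule.span_mono ?_ h6
    rintro _ ⟨_, ⟨u, hu, rfl⟩, rfl⟩
    refine ⟨cmb N L u, List.mem_map.2 ⟨u, hu, rfl⟩, ?_⟩
    rw [mq_cmb]
    exact hΦc (qv u)

theorem adjoin_spB (N : ℕ) (Bs : List Mat) :
    Algebra.adjoin ℚ {M : Matrix (Fin N) (Fin N) ℚ | ∃ Z ∈ Bs, M = mq N Z} =
      Algebra.adjoin ℚ (spB N Bs : Set (Matrix (Fin N) (Fin N) ℚ)) := by
  apply le_antisymm
  · exact Algebra.adjoin_mono Submodule.subset_span
  · refine Algebra.adjoin_le ?_
    intro M hM
    have h1 : spB N Bs ≤ Subalgebra.toSubmodule (Algebra.adjoin ℚ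
        {M : Matrix (Fin N) (Fin N) ℚ | ∃ Z ∈ Bs, M = mq N Z}) :=
      Submodule.span_le.2 fun x hx => Algebra.subset_adjoin hx
    exact h1 hM

theorem spB_append (N : ℕ) (K L : List Mat) : spB N (K ++ L) = spB N K ⊔ spB N L := by
  rw [spB, spB, spB, ← Submodule.span_union]
  congr 1
  ext M
  constructor
  · rintro ⟨B, hB, rfl⟩
    rcases List.mem_append.1 hB with h | h
    · exact Or.inl ⟨B, h, rfl⟩
    · exact Or.inr ⟨B, h, rfl⟩
  · rintro (⟨B, hB, rfl⟩ | ⟨B, hB, rfl⟩)
    · exact ⟨B, List.mem_append.2 (Or.inl hB), rfl⟩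
    · exact ⟨B, List.mem_append.2 (Or.inr hB), rfl⟩

/-- The input with the radical added. -/
noncomputable def addR (I : Inp) : Inp := (I.1, I.2 ++ radF I.1.length I.2)

theorem poly_addR : Poly addR := by
  unfold addR
  have h1 : Poly (fun I : Inp => I.1) := Poly.fst Poly.id
  have h2 : Poly (fun I : Inp => I.2) := Poly.snd Poly.id
  exact Poly.pair h1 (Poly.append h2 (poly_radF (UPoly.length h1) h2))

theorem spB_addR (I : Inp) : spB I.1.length (I.2 ++ radF I.1.length I.2) =
    spB I.1.length I.2 ⊔ radT (Algebra.adjoin ℚ (spB I.1.length I.2 : Set (Matrix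
      (Fin I.1.length) (Fin I.1.length) ℚ))) := by
  rw [spB_append, spB_radF, adjoin_spB]

end Pool.Agent.Helper69K1.GrB
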