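import Pool.Agent.Helper69K1.Gr.Stm

/-!
# Hidden block triangular spaces whose diagonal blocks are closed under iterated commutators:
statements of the pieces
-/

namespace Pool.Agent.Helper69K1.GrB

open Module Pool.Agent.Helper69K1 Pool.Agent.Helper69K1.Gr

/-- The iterated commutator `[M_k, [M_(k-1), ..., [M_1, M_0]]]`. -/
def iterComm {R : Type} [Ring R] (M : ℕ → R) : ℕ → R
  | 0 => M 0
  | k + 1 => M (k + 1) * iterComm M k - iterComm M k * M (k + 1)

/-- The block diagonal part of a matrix, the blocks being the level sets of `g`. -/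
def diagPart {N : ℕ} (g : Fin N → ℕ) (M : Matrix (Fin N) (Fin N) ℂ) :
    Matrix (Fin N) (Fin N) ℂ :=
  Matrix.of fun i j => if g i = g j then M i j else 0

/-- The radical of the trace form of an algebra of matrices. -/
def radT {n : Type} [Fintype n] [DecidableEq n] (A : Subalgebra ℚ (Matrix n n ℚ)) :
    Submodule ℚ (Matrix n n ℚ) where
  carrier := {r | r ∈ A ∧ ∀ b ∈ A, (r * b).trace = 0}
  add_mem' := fun {r s} hr hs => ⟨A.add_mem hr.1 hs.1, fun b hb => by
    rw [add_mul, Matrix.trace_add, hr.2 b hb, hs.2 b hb, add_zero]⟩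
  zero_mem' := ⟨A.zero_mem, fun b _ => by rw [zero_mul, Matrix.trace_zero]⟩
  smul_mem' := fun c r hr => ⟨A.smul_mem hr.1 c, fun b hb => by
    rw [smul_mul_assoc, Matrix.trace_smul, hr.2 b hb, smul_zero]⟩

/-- P1: adding an element of the radical does not change singularity. -/
def S_P1 : Prop := ∀ (n : Type) [Fintype n] [DecidableEq n] (A : Subalgebra ℚ (Matrix n n ℚ))
  (X : Matrix n n ℚ), X ∈ A → ∀ r ∈ radT A, (X + r).det ≠ 0 → X.det ≠ 0

/-- P2: the space plus the radical is closed. -/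
def S_P2 : Prop := ∀ (n : Type) [Fintype n] [DecidableEq n] (A : Subalgebra ℚ (Matrix n n ℚ))
  (h : Submodule ℚ (Matrix n n ℚ)) (k : ℕ), h ≤ Subalgebra.toSubmodule A →
  com h k ≤ h ⊔ radT A → com (h ⊔ radT A) k ≤ h ⊔ radT A

/-- P3: from complex block triangular coordinates to the radical. -/
def S_P3 : Prop := ∀ (N k : ℕ) (B : Submodule ℚ (Matrix (Fin N) (Fin N) ℚ))
  (P : Matrix (Fin N) (Fin N) ℂ), P.det ≠ 0 → ∀ g : Fin N → ℕ,
  (∀ X ∈ B, ∀ i j, g j < g i → (P * X.map (algebraMap ℚ ℂ) * P⁻¹) i j = 0) →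
  (∀ M : ℕ → Matrix (Fin N) (Fin N) ℚ, (∀ i, M i ∈ B) →
    ∃ Y ∈ Submodule.span ℂ {Z : Matrix (Fin N) (Fin N) ℂ | ∃ X ∈ B, Z = X.map (algebraMap ℚ ℂ)},
      diagPart g (P * Y * P⁻¹) =
        iterComm (fun i => diagPart g (P * (M i).map (algebraMap ℚ ℂ) * P⁻¹)) k) →
  com B k ≤ B ⊔ radT (Algebra.adjoin ℚ (B : Set (Matrix (Fin N) (Fin N) ℚ)))

end Pool.Agent.Helper69K1.GrB
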